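import Pool.Agent.H.MP_e38963_al.B

set_option autoImplicit false

namespace Pool.Agent.Results.MP_7c14f5_an.No

open Filter Topology

/-- unitary group -/
abbrev U (k : ℕ) : Type := Matrix.unitaryGroup (Fin k) ℂ

/-- operator norm -/
noncomputable def opNorm {k : ℕ} (A : Matrix (Fin k) (Fin k) ℂ) : ℝ :=
  ‖Matrix.toEuclideanCLM (𝕜 := ℂ) A‖

/-- operator norm distance of unitary matrices -/
noncomputable def d {k : ℕ} (a b : U k) : ℝ := opNorm (a.val - b.val)

/-- norm distance of unitaries of a C*-algebra -/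
noncomputable def dC {B : Type} [CStarAlgebra B] (a b : unitary B) : ℝ := ‖(a : B) - b‖

/-- stability with respect to every sequence of unital C*-algebras -/
def WeakStable (G : Type) [Group G] : Prop :=
  ∀ (B : ℕ → Type) [∀ n, CStarAlgebra (B n)] (φ : ∀ n, G → unitary (B n)),
    (∀ g h, Tendsto (fun n => dC (φ n (g * h)) (φ n g * φ n h)) atTop (𝓝 0)) →
    ∃ ψ : ∀ n, G →* unitary (B n), ∀ g, Tendsto (fun n => dC (φ n g) (ψ n g)) atTop (𝓝 0)

/-- stability with respect to matrix algebras -/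
def MatStable (G : Type) [Group G] : Prop :=
  ∀ (k : ℕ → ℕ), (∀ n, 0 < k n) → ∀ φ : ∀ n, G → U (k n),
    (∀ g h, Tendsto (fun n => d (φ n (g * h)) (φ n g * φ n h)) atTop (𝓝 0)) →
    ∃ ψ : ∀ n, G →* U (k n), ∀ g, Tendsto (fun n => d (φ n g) (ψ n g)) atTop (𝓝 0)

theorem result :
    ∃ (G : Type) (_ : Group G) (H : Subgroup G), Countable G ∧ H.index = 2 ∧
      WeakStable H ∧ MatStable H ∧ ¬ MatStable G ∧ ¬ WeakStable G := by
  have h : Pool.Agent.H.MP_e38963_al.WS (SemidirectProduct.inl :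
      Pool.Agent.H.MP_94dfa5_al.G →* Pool.Agent.H.MP_94dfa5_al.K).range :=
    Pool.Agent.H.MP_e38963_al.G_ws.of_equiv (MonoidHom.ofInjective SemidirectProduct.inl_injective)
  refine ⟨Pool.Agent.H.MP_94dfa5_al.K, inferInstance, _,
    SemidirectProduct.equivProd.injective.countable, ?_, h, h.ms,
    Pool.Agent.H.MP_e38963_al.K_not_ms,
    fun h' => Pool.Agent.H.MP_e38963_al.K_not_ms (Pool.Agent.H.MP_e38963_al.WS.ms h')⟩
  rw [SemidirectProduct.range_inl_eq_ker_rightHom, Subgroup.index_ker,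
    MonoidHom.range_eq_top.2 SemidirectProduct.rightHom_surjective]
  simp

end Pool.Agent.Results.MP_7c14f5_an.No
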